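import Mathlib
set_option autoImplicit false

namespace Pool.Agent.Results.MP_645dd0_co.NotUnique

open SimpleGraph

/-- `K_3^3`: the triangle `0, 1, 2` with the pendant vertices `3, 4, 5` attached to `0, 1, 2`. -/
def K33 : SimpleGraph (Fin 6) :=
  SimpleGraph.fromEdgeSet {s(0, 1), s(0, 2), s(1, 2), s(0, 3), s(1, 4), s(2, 5)}

/-- `G` is `F`-saturated: it has no subgraph isomorphic to `F`, and `G + uv` has one for every pair
of nonadjacent vertices `u`, `v`. -/
def Saturated {W V : Type} (F : SimpleGraph W) (G : SimpleGraph V) : Prop :=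
  ¬ F.IsContained G ∧ ∀ u v : V, u ≠ v → ¬ G.Adj u v → F.IsContained (G ⊔ SimpleGraph.edge u v)

/-- `sat(n, F)`: the minimum number of edges of an `F`-saturated graph on `n` vertices. -/
noncomputable def sat {W : Type} (n : ℕ) (F : SimpleGraph W) : ℕ :=
  sInf {m : ℕ | ∃ G : SimpleGraph (Fin n), Saturated F G ∧ G.edgeSet.ncard = m}

/-- `H_n = K_1 ∨ ((n-4)/2 K_2 ∪ K_3)` (`n ≥ 4` even): the vertex `0` is adjacent to all others, the
vertices `1, 2, 3` form a triangle, and `{4, 5}, {6, 7}, ...` are edges. -/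
def H (n : ℕ) : SimpleGraph (Fin n) where
  Adj i j := i ≠ j ∧ (i.val = 0 ∨ j.val = 0 ∨ (i.val ≤ 3 ∧ j.val ≤ 3) ∨
    (4 ≤ i.val ∧ 4 ≤ j.val ∧ i.val / 2 = j.val / 2))
  symm := ⟨fun i j h => by
    refine ⟨h.1.symm, ?_⟩
    rcases h.2 with h | h | h | h
    · exact Or.inr (Or.inl h)
    · exact Or.inl h
    · exact Or.inr (Or.inr (Or.inl ⟨h.2, h.1⟩))
    · exact Or.inr (Or.inr (Or.inr ⟨h.2.1, h.1, h.2.2.symm⟩))⟩
  loopless := ⟨fun i h => h.1 rfl⟩

/-- `B_n = K_1 ∨ ((n-6)/2 K_2 ∪ K_{1,4})` (`n ≥ 6` even): the vertex `0` is adjacent to all others,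
the vertex `1` is adjacent to `2, 3, 4, 5`, and `{6, 7}, {8, 9}, ...` are edges. -/
def B (n : ℕ) : SimpleGraph (Fin n) where
  Adj i j := i ≠ j ∧ (i.val = 0 ∨ j.val = 0 ∨ (i.val = 1 ∧ j.val ≤ 5) ∨ (i.val ≤ 5 ∧ j.val = 1) ∨
    (6 ≤ i.val ∧ 6 ≤ j.val ∧ i.val / 2 = j.val / 2))
  symm := ⟨fun i j h => by
    refine ⟨h.1.symm, ?_⟩
    rcases h.2 with h | h | h | h | h
    · exact Or.inr (Or.inl h)
    · exact Or.inl h
    · exact Or.inr (Or.inr (Or.inr (Or.inl ⟨h.2, h.1⟩)))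
    · exact Or.inr (Or.inr (Or.inl ⟨h.2, h.1⟩))
    · exact Or.inr (Or.inr (Or.inr (Or.inr ⟨h.2.1, h.1, h.2.2.symm⟩)))⟩
  loopless := ⟨fun i h => h.1 rfl⟩

/-- a copy of `K_3^3` from six distinct vertices -/
lemma contained_of {V : Type} {G : SimpleGraph V} (a b c x y z : V)
    (hab : G.Adj a b) (hac : G.Adj a c) (hbc : G.Adj b c) (hax : G.Adj a x) (hby : G.Adj b y)
    (hcz : G.Adj c z) (h1 : a ≠ y) (h2 : a ≠ z) (h3 : b ≠ x) (h4 : b ≠ z) (h5 : c ≠ x)
    (h6 : c ≠ y) (h7 : x ≠ y) (h8 : x ≠ z) (h9 : y ≠ z) : K33.IsContained G := by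
  have hinj : Function.Injective ![a, b, c, x, y, z] := by
    have := hab.ne; have := hac.ne; have := hbc.ne; have := hax.ne; have := hby.ne
    have := hcz.ne
    intro i j hij
    fin_cases i <;> fin_cases j <;> simp_all [eq_comm]
  refine ⟨⟨⟨![a, b, c, x, y, z], ?_⟩, hinj⟩⟩
  intro i j hij
  unfold K33 at hij
  rw [SimpleGraph.fromEdgeSet_adj] at hij
  have hh := hij.1
  simp only [Set.mem_insert_iff, Set.mem_singleton_iff, Sym2.eq_iff] at hh
  rcases hh with h | h | h | h | h | h <;> rcases h with ⟨rfl, rfl⟩ | ⟨rfl, rfl⟩ <;>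
    simp [hab, hac, hbc, hax, hby, hcz, hab.symm, hac.symm, hbc.symm, hax.symm, hby.symm, hcz.symm]

/-- a vertex of `B n` with three distinct neighbours is `0` or `1` -/
lemma B_deg {n : ℕ} (v x y z : Fin n) (hx : (B n).Adj v x) (hy : (B n).Adj v y)
    (hz : (B n).Adj v z) (hxy : x ≠ y) (hxz : x ≠ z) (hyz : y ≠ z) : v.val ≤ 1 := by
  have h1 := hx.1; have h2 := hx.2
  have h3 := hy.1; have h4 := hy.2
  have h5 := hz.1; have h6 := hz.2
  simp only [ne_eq, Fin.ext_iff] at *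
  omega

lemma B_free (n : ℕ) : ¬ K33.IsContained (B n) := by
  rintro ⟨f⟩
  have hinj := f.injective
  have hadj : ∀ i j, K33.Adj i j → (B n).Adj (f i) (f j) := fun i j h => f.toHom.map_rel h
  have hne : ∀ i j, i ≠ j → f i ≠ f j := fun i j h e => h (hinj e)
  have a01 := hadj 0 1 (by simp [K33])
  have a02 := hadj 0 2 (by simp [K33])
  have a12 := hadj 1 2 (by simp [K33])
  have a03 := hadj 0 3 (by simp [K33])
  have a14 := hadj 1 4 (by simp [K33])
  have a25 := hadj 2 5 (by simp [K33])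
  have d0 := B_deg _ _ _ _ a01 a02 a03 (hne _ _ (by decide)) (hne _ _ (by decide))
    (hne _ _ (by decide))
  have d1 := B_deg _ _ _ _ a01.symm a12 a14 (hne _ _ (by decide)) (hne _ _ (by decide))
    (hne _ _ (by decide))
  have d2 := B_deg _ _ _ _ a02.symm a12.symm a25 (hne _ _ (by decide)) (hne _ _ (by decide))
    (hne _ _ (by decide))
  have e01 := hne 0 1 (by decide)
  have e02 := hne 0 2 (by decide)
  have e12 := hne 1 2 (by decide)
  simp only [ne_eq, Fin.ext_iff] at e01 e02 e12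
  omega

lemma B_not_iso {n : ℕ} (hn : 8 ≤ n) : ¬ Nonempty (B n ≃g H n) := by
  rintro ⟨f⟩
  have hadj : ∀ i j : Fin n, (H n).Adj i j → (B n).Adj (f.symm i) (f.symm j) :=
    fun i j h => f.symm.map_rel_iff.mpr h
  have hne : ∀ i j : Fin n, i ≠ j → f.symm i ≠ f.symm j := fun i j h e => h (f.symm.injective e)
  have key : ∀ i j : Fin n, i.val ≤ 3 → j.val ≤ 3 → i ≠ j → (H n).Adj i j := by
    intro i j hi hj hij
    exact ⟨hij, Or.inr (Or.inr (Or.inl ⟨hi, hj⟩))⟩
  have v : ∀ k : ℕ, k ≤ 3 → k < n := fun k hk => by omega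
  let w : ∀ k : ℕ, k ≤ 3 → Fin n := fun k hk => ⟨k, v k hk⟩
  have d0 := B_deg (f.symm (w 0 (by omega))) (f.symm (w 1 (by omega))) (f.symm (w 2 (by omega)))
    (f.symm (w 3 (by omega)))
    (hadj _ _ (key _ _ (by simp [w]) (by simp [w]) (by simp [w])))
    (hadj _ _ (key _ _ (by simp [w]) (by simp [w]) (by simp [w])))
    (hadj _ _ (key _ _ (by simp [w]) (by simp [w]) (by simp [w])))
    (hne _ _ (by simp [w])) (hne _ _ (by simp [w])) (hne _ _ (by simp [w]))
  have d1 := B_deg (f.symm (w 1 (by omega))) (f.symm (w 0 (by omega))) (f.symm (w 2 (by omega)))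
    (f.symm (w 3 (by omega)))
    (hadj _ _ (key _ _ (by simp [w]) (by simp [w]) (by simp [w])))
    (hadj _ _ (key _ _ (by simp [w]) (by simp [w]) (by simp [w])))
    (hadj _ _ (key _ _ (by simp [w]) (by simp [w]) (by simp [w])))
    (hne _ _ (by simp [w])) (hne _ _ (by simp [w])) (hne _ _ (by simp [w]))
  have d2 := B_deg (f.symm (w 2 (by omega))) (f.symm (w 0 (by omega))) (f.symm (w 1 (by omega)))
    (f.symm (w 3 (by omega)))
    (hadj _ _ (key _ _ (by simp [w]) (by simp [w]) (by simp [w])))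
    (hadj _ _ (key _ _ (by simp [w]) (by simp [w]) (by simp [w])))
    (hadj _ _ (key _ _ (by simp [w]) (by simp [w]) (by simp [w])))
    (hne _ _ (by simp [w])) (hne _ _ (by simp [w])) (hne _ _ (by simp [w]))
  have e01 := hne (w 0 (by omega)) (w 1 (by omega)) (by simp [w])
  have e02 := hne (w 0 (by omega)) (w 2 (by omega)) (by simp [w])
  have e12 := hne (w 1 (by omega)) (w 2 (by omega)) (by simp [w])
  simp only [ne_eq, Fin.ext_iff] at e01 e02 e12
  omega

lemma adj_sup_left {V : Type} {G : SimpleGraph V} {u v x y : V} (h : G.Adj x y) :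
    (G ⊔ SimpleGraph.edge u v).Adj x y := Or.inl h

lemma adj_sup_new {V : Type} {G : SimpleGraph V} {u v : V} (h : u ≠ v) :
    (G ⊔ SimpleGraph.edge u v).Adj u v := by
  refine Or.inr ?_
  rw [SimpleGraph.edge_adj]
  exact ⟨Or.inl ⟨rfl, rfl⟩, h⟩

lemma adjB {n : ℕ} (i j : ℕ) (hi : i < n) (hj : j < n) (h : i ≠ j ∧ (i = 0 ∨ j = 0 ∨
    (i = 1 ∧ j ≤ 5) ∨ (i ≤ 5 ∧ j = 1) ∨ (6 ≤ i ∧ 6 ≤ j ∧ i / 2 = j / 2))) :
    (B n).Adj ⟨i, hi⟩ ⟨j, hj⟩ := by
  refine ⟨?_, h.2⟩
  simp only [ne_eq, Fin.mk.injEq]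
  exact h.1

/-- the partner of a vertex `≥ 6` -/
def pt (u : ℕ) : ℕ := if u % 2 = 0 then u + 1 else u - 1

lemma pt_spec (u n : ℕ) (hu : 6 ≤ u) (hn : Even n) (hun : u < n) :
    pt u < n ∧ 6 ≤ pt u ∧ pt u / 2 = u / 2 ∧ pt u ≠ u := by
  obtain ⟨m, rfl⟩ := hn
  unfold pt
  split_ifs <;> refine ⟨?_, ?_, ?_, ?_⟩ <;> omega

lemma B_sat_aux {n : ℕ} (hn : Even n) (h8 : 8 ≤ n) (u v : ℕ) (hu : u < n) (hv : v < n)
    (huv : u < v) (hna : ¬ (B n).Adj ⟨u, hu⟩ ⟨v, hv⟩) :
    K33.IsContained (B n ⊔ SimpleGraph.edge ⟨u, hu⟩ ⟨v, hv⟩) := by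
  have hne : (⟨u, hu⟩ : Fin n) ≠ ⟨v, hv⟩ := by
    simp only [ne_eq, Fin.mk.injEq]; omega
  have hna' : ¬ (u ≠ v ∧ (u = 0 ∨ v = 0 ∨
    (u = 1 ∧ v ≤ 5) ∨ (u ≤ 5 ∧ v = 1) ∨ (6 ≤ u ∧ 6 ≤ v ∧ u / 2 = v / 2))) :=
    fun h => hna (adjB u v hu hv h)
  have hnew := adj_sup_new (G := B n) hne
  have h0 : (0 : ℕ) < n := by omega
  -- generic constructor with natural numbers
  rcases lt_or_ge v 6 with hv6 | hv6
  · -- u, v ∈ {2,3,4,5}
    have hu2 : 2 ≤ u := by omega
    -- choose the two remaining leaves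
    obtain ⟨w, w', hw⟩ : ∃ w w' : ℕ, 2 ≤ w ∧ w ≤ 5 ∧ 2 ≤ w' ∧ w' ≤ 5 ∧ w ≠ w' ∧ w ≠ u ∧ w ≠ v ∧
        w' ≠ u ∧ w' ≠ v := by
      have h1 : v ≤ 5 := by omega
      have h2 : u ≤ 4 := by omega
      interval_cases u <;> interval_cases v <;> simp at huv <;>
        first
        | exact ⟨2, 3, by decide⟩ | exact ⟨2, 4, by decide⟩ | exact ⟨2, 5, by decide⟩
        | exact ⟨3, 4, by decide⟩ | exact ⟨3, 5, by decide⟩ | exact ⟨4, 5, by decide⟩
    have hwn : w < n := by omega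
    have hwn' : w' < n := by omega
    have h1n : 1 < n := by omega
    refine contained_of (⟨0, h0⟩ : Fin n) ⟨1, h1n⟩ ⟨u, hu⟩ ⟨w, hwn⟩ ⟨w', hwn'⟩ ⟨v, hv⟩
      (adj_sup_left (adjB _ _ _ _ (by omega))) (adj_sup_left (adjB _ _ _ _ (by omega)))
      (adj_sup_left (adjB _ _ _ _ (by omega))) (adj_sup_left (adjB _ _ _ _ (by omega)))
      (adj_sup_left (adjB _ _ _ _ (by omega))) hnew ?_ ?_ ?_ ?_ ?_ ?_ ?_ ?_ ?_ <;>
      (simp only [ne_eq, Fin.mk.injEq]; omega)
  · obtain ⟨p1, p2, p3, p4⟩ := pt_spec v n hv6 hn hv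
    rcases lt_or_ge u 6 with hu6 | hu6
    · rcases Nat.lt_or_ge u 2 with hu2 | hu2
      · -- u = 1
        have hu1 : u = 1 := by omega
        subst hu1
        have h2n : 2 < n := by omega
        have h3n : 3 < n := by omega
        refine contained_of (⟨0, h0⟩ : Fin n) ⟨1, hu⟩ ⟨v, hv⟩ ⟨3, h3n⟩ ⟨2, h2n⟩ ⟨pt v, p1⟩
          (adj_sup_left (adjB _ _ _ _ (by omega))) (adj_sup_left (adjB _ _ _ _ (by omega)))
          hnew (adj_sup_left (adjB _ _ _ _ (by omega)))
          (adj_sup_left (adjB _ _ _ _ (by omega))) (adj_sup_left (adjB _ _ _ _ (by omega)))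
          ?_ ?_ ?_ ?_ ?_ ?_ ?_ ?_ ?_ <;>
          (simp only [ne_eq, Fin.mk.injEq]; omega)
      · obtain ⟨w, hw⟩ : ∃ w : ℕ, 2 ≤ w ∧ w ≤ 5 ∧ w ≠ u := by
          by_cases h : u = 2
          · exact ⟨3, by omega⟩
          · exact ⟨2, by omega⟩
        have hwn : w < n := by omega
        have h1n : 1 < n := by omega
        refine contained_of (⟨0, h0⟩ : Fin n) ⟨u, hu⟩ ⟨v, hv⟩ ⟨w, hwn⟩ ⟨1, h1n⟩ ⟨pt v, p1⟩
          (adj_sup_left (adjB _ _ _ _ (by omega))) (adj_sup_left (adjB _ _ _ _ (by omega)))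
          hnew (adj_sup_left (adjB _ _ _ _ (by omega)))
          (adj_sup_left (adjB _ _ _ _ (by omega))) (adj_sup_left (adjB _ _ _ _ (by omega)))
          ?_ ?_ ?_ ?_ ?_ ?_ ?_ ?_ ?_ <;>
          (simp only [ne_eq, Fin.mk.injEq]; omega)
    · obtain ⟨q1, q2, q3, q4⟩ := pt_spec u n hu6 hn hu
      have h1n : 1 < n := by omega
      refine contained_of (⟨0, h0⟩ : Fin n) ⟨u, hu⟩ ⟨v, hv⟩ ⟨1, h1n⟩ ⟨pt u, q1⟩ ⟨pt v, p1⟩
        (adj_sup_left (adjB _ _ _ _ (by omega))) (adj_sup_left (adjB _ _ _ _ (by omega)))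
        hnew (adj_sup_left (adjB _ _ _ _ (by omega)))
        (adj_sup_left (adjB _ _ _ _ (by omega))) (adj_sup_left (adjB _ _ _ _ (by omega)))
        ?_ ?_ ?_ ?_ ?_ ?_ ?_ ?_ ?_ <;>
        (simp only [ne_eq, Fin.mk.injEq]; omega)

lemma B_sat {n : ℕ} (hn : Even n) (h8 : 8 ≤ n) : Saturated K33 (B n) := by
  refine ⟨B_free n, ?_⟩
  rintro ⟨u, hu⟩ ⟨v, hv⟩ huv hna
  have huv' : u ≠ v := by simpa [Fin.mk.injEq] using huv
  rcases lt_or_gt_of_ne huv' with h | h
  · exact B_sat_aux hn h8 u v hu hv h hna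
  · have := B_sat_aux hn h8 v u hv hu h (fun h => hna h.symm)
    rwa [SimpleGraph.edge_comm] at this

open Classical in
lemma ncard_edges {n : ℕ} (G : SimpleGraph (Fin n)) :
    2 * G.edgeSet.ncard = ∑ v, G.degree v := by
  rw [SimpleGraph.sum_degrees_eq_twice_card_edges, ← SimpleGraph.coe_edgeFinset,
    Set.ncard_coe_finset]

open Classical in
lemma deg_eq {n : ℕ} (G : SimpleGraph (Fin n)) (v : Fin n) (s : Finset ℕ)
    (h : ∀ j : Fin n, G.Adj v j ↔ j.val ∈ s) (hs : ∀ x ∈ s, x < n) : G.degree v = s.card := by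
  rw [← SimpleGraph.card_neighborFinset_eq_degree]
  rw [← Finset.card_map Fin.valEmbedding]
  congr 1
  ext x
  simp only [Finset.mem_map, SimpleGraph.mem_neighborFinset, Fin.valEmbedding_apply]
  constructor
  · rintro ⟨j, hj, rfl⟩
    exact (h j).1 hj
  · intro hx
    exact ⟨⟨x, hs x hx⟩, (h _).2 hx, rfl⟩

open Classical in
lemma B_edges {n : ℕ} (hn : Even n) (h8 : 8 ≤ n) : 2 * (B n).edgeSet.ncard = 3 * n := by
  rw [ncard_edges]
  have hdeg : ∀ v : Fin n, (B n).degree v = if v.val = 0 then n - 1 else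
      if v.val = 1 then 5 else 2 := by
    intro v
    split_ifs with h0 h1
    · rw [deg_eq (B n) v (Finset.Ico 1 n)]
      · simp
      · intro j
        simp only [B, Finset.mem_Ico, ne_eq, Fin.ext_iff]
        have := j.isLt
        omega
      · intro x hx; simp only [Finset.mem_Ico] at hx; exact hx.2
    · rw [deg_eq (B n) v ({0, 2, 3, 4, 5} : Finset ℕ)]
      · rfl
      · intro j
        simp only [B, Finset.mem_insert, Finset.mem_singleton, ne_eq, Fin.ext_iff]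
        omega
      · intro x hx
        simp only [Finset.mem_insert, Finset.mem_singleton] at hx
        omega
    · rcases lt_or_ge v.val 6 with h6 | h6
      · rw [deg_eq (B n) v ({0, 1} : Finset ℕ)]
        · rfl
        · intro j
          simp only [B, Finset.mem_insert, Finset.mem_singleton, ne_eq, Fin.ext_iff]
          omega
        · intro x hx
          simp only [Finset.mem_insert, Finset.mem_singleton] at hx
          omega
      · obtain ⟨p1, p2, p3, p4⟩ := pt_spec v.val n h6 hn v.isLt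
        rw [deg_eq (B n) v ({0, pt v.val} : Finset ℕ)]
        · rw [Finset.card_pair]; omega
        · intro j
          simp only [B, Finset.mem_insert, Finset.mem_singleton, ne_eq, Fin.ext_iff]
          omega
        · intro x hx
          simp only [Finset.mem_insert, Finset.mem_singleton] at hx
          omega
  rw [Finset.sum_congr rfl (fun v _ => hdeg v)]
  rw [Fin.sum_univ_eq_sum_range (fun i => if i = 0 then n - 1 else if i = 1 then 5 else 2) n]
  obtain ⟨m, rfl⟩ : ∃ m, n = m + 2 := ⟨n - 2, by omega⟩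
  rw [Finset.sum_range_succ', Finset.sum_range_succ']
  simp
  omega

open Classical in
lemma H_edges {n : ℕ} (hn : Even n) (h8 : 8 ≤ n) : 2 * (H n).edgeSet.ncard = 3 * n := by
  rw [ncard_edges]
  have hdeg : ∀ v : Fin n, (H n).degree v = if v.val = 0 then n - 1 else
      if v.val ≤ 3 then 3 else 2 := by
    intro v
    split_ifs with h0 h1
    · rw [deg_eq (H n) v (Finset.Ico 1 n)]
      · simp
      · intro j
        simp only [H, Finset.mem_Ico, ne_eq, Fin.ext_iff]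
        have := j.isLt
        omega
      · intro x hx; simp only [Finset.mem_Ico] at hx; exact hx.2
    · rw [deg_eq (H n) v ((Finset.range 4).erase v.val)]
      · rw [Finset.card_erase_of_mem (by simp; omega)]; rfl
      · intro j
        simp only [H, Finset.mem_erase, Finset.mem_range, ne_eq, Fin.ext_iff]
        omega
      · intro x hx
        simp only [Finset.mem_erase, Finset.mem_range] at hx
        omega
    · rcases lt_or_ge v.val 6 with h6 | h6
      · rw [deg_eq (H n) v ({0, 9 - v.val} : Finset ℕ)]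
        · rw [Finset.card_pair]; omega
        · intro j
          simp only [H, Finset.mem_insert, Finset.mem_singleton, ne_eq, Fin.ext_iff]
          omega
        · intro x hx
          simp only [Finset.mem_insert, Finset.mem_singleton] at hx
          omega
      · obtain ⟨p1, p2, p3, p4⟩ := pt_spec v.val n h6 hn v.isLt
        rw [deg_eq (H n) v ({0, pt v.val} : Finset ℕ)]
        · rw [Finset.card_pair]; omega
        · intro j
          simp only [H, Finset.mem_insert, Finset.mem_singleton, ne_eq, Fin.ext_iff]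
          omega
        · intro x hx
          simp only [Finset.mem_insert, Finset.mem_singleton] at hx
          omega
  rw [Finset.sum_congr rfl (fun v _ => hdeg v)]
  rw [Fin.sum_univ_eq_sum_range (fun i => if i = 0 then n - 1 else if i ≤ 3 then 3 else 2) n]
  obtain ⟨m, rfl⟩ : ∃ m, n = m + 4 := ⟨n - 4, by omega⟩
  have hs : ∑ x ∈ Finset.range m, (if x + 1 + 1 + 1 + 1 = 0 then (m + 4) - 1 else
      if x + 1 + 1 + 1 + 1 ≤ 3 then 3 else 2) = 2 * m := by
    rw [Finset.sum_congr rfl (fun x _ => by rw [if_neg (by omega), if_neg (by omega)])]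
    simp [mul_comm]
  rw [Finset.sum_range_succ', Finset.sum_range_succ', Finset.sum_range_succ',
    Finset.sum_range_succ', hs]
  simp
  omega

/-- For every even `n ≥ 8` the graph `B_n` is `K_3^3`-saturated, has as many edges as `H_n`
(namely `3n/2`) and is not isomorphic to `H_n`.  Hence there is no `k` such that for all even
`n ≥ k` the graph `H_n` is the only `K_3^3`-saturated graph on `n` vertices with
`sat(n, K_3^3)` edges (up to isomorphism); and for every even `n ≥ 8` there is a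
`K_3^3`-saturated graph on `n` vertices with `sat(n, K_3^3)` edges which is not isomorphic to
`H_n`. -/
theorem result :
    (∀ n : ℕ, Even n → 8 ≤ n →
      Saturated K33 (B n) ∧ 2 * (B n).edgeSet.ncard = 3 * n ∧ 2 * (H n).edgeSet.ncard = 3 * n ∧
        ¬ Nonempty (B n ≃g H n)) ∧
    (∀ n : ℕ, Even n → 8 ≤ n → ∃ G : SimpleGraph (Fin n),
      Saturated K33 G ∧ G.edgeSet.ncard = sat n K33 ∧ ¬ Nonempty (G ≃g H n)) ∧
    ¬ ∃ k : ℕ, ∀ n : ℕ, k ≤ n → Even n → ∀ G : SimpleGraph (Fin n),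
      (Saturated K33 G ∧ G.edgeSet.ncard = sat n K33) ↔ Nonempty (G ≃g H n) := by
  have h2 : ∀ n : ℕ, Even n → 8 ≤ n → ∃ G : SimpleGraph (Fin n),
      Saturated K33 G ∧ G.edgeSet.ncard = sat n K33 ∧ ¬ Nonempty (G ≃g H n) := by
    intro n hn h8
    have hne : ({m : ℕ | ∃ G : SimpleGraph (Fin n), Saturated K33 G ∧ G.edgeSet.ncard = m}).Nonempty :=
      ⟨_, B n, B_sat hn h8, rfl⟩
    obtain ⟨G, hG, hGs⟩ := Nat.sInf_mem hne
    by_cases hiso : Nonempty (G ≃g H n)
    · refine ⟨B n, B_sat hn h8, ?_, B_not_iso h8⟩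
      have e1 : G.edgeSet.ncard = (H n).edgeSet.ncard := by
        obtain ⟨f⟩ := hiso
        have := Nat.card_congr f.mapEdgeSet
        rwa [Nat.card_coe_set_eq, Nat.card_coe_set_eq] at this
      have e2 := B_edges hn h8
      have e3 := H_edges hn h8
      have : (B n).edgeSet.ncard = (H n).edgeSet.ncard := by omega
      rw [this, ← e1, hGs]; rfl
    · exact ⟨G, hG, hGs, hiso⟩
  refine ⟨fun n hn h8 => ⟨B_sat hn h8, B_edges hn h8, H_edges hn h8, B_not_iso h8⟩, h2, ?_⟩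
  rintro ⟨k, hk⟩
  obtain ⟨G, hG, hs, hi⟩ := h2 (2 * (k + 8)) ⟨k + 8, by ring⟩ (by omega)
  exact hi ((hk (2 * (k + 8)) (by omega) ⟨k + 8, by ring⟩ G).1 ⟨hG, hs⟩)

end Pool.Agent.Results.MP_645dd0_co.NotUnique
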